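import Pool.Agent.N615.JM.FamT
import Pool.Agent.N568.PJ.D12
import Pool.Agent.N402.PJ.BX
import Pool.Agent.N402.PJ.LD
import Pool.Agent.N539.PJ.Lp

/-!
# Project JM, part FAMT, unconditionally; project PJ, part FAM

`S_D1`, `S_D2`: helper568; `S_BX`, `S_LD`: helper402; `S_LP`: helper539.
-/

set_option autoImplicit false

open Polynomial
open scoped Classical

namespace Pool.Agent.N615.JM

open Pool.Agent.N352.PJ Pool.Agent.N874.JM

/-- **JM/FAMT.** -/
theorem famt : S_FAMT :=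
  famt_of (Pool.Agent.N402.PJ.LD.ld Pool.Agent.N568.PJ.d1 Pool.Agent.N568.PJ.d2)
    Pool.Agent.N402.PJ.bx (Pool.Agent.N539.PJ.lp Pool.Agent.N568.PJ.d1 Pool.Agent.N568.PJ.d2)

/-- `S_FAM` of project PJ is the case of the empty set `T` -/
theorem fam_of (h : S_FAMT) : S_FAM := by
  intro g k _ _ hg hk r hr
  obtain ⟨c, hc, hS⟩ := h g k hg hk r hr ∅ (fun _ => 0) (fun P hP => absurd hP (Finset.notMem_empty _))
  refine ⟨c, hc, fun S h' hS' => ?_⟩
  obtain ⟨N₀, hN⟩ := hS S h' hS' (Finset.disjoint_empty_right _)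
  refine ⟨N₀, fun N hN' => ?_⟩
  have h1 := hN N hN'
  have h2 : {f : k[X][X] | FamT g N r S h' ∅ (fun _ => 0) f} = {f : k[X][X] | Fam g N r S h' f} := by
    ext f
    exact ⟨fun hf => hf.fam, fun hf => ⟨hf, fun P hP => absurd hP (Finset.notMem_empty _)⟩⟩
  rw [h2] at h1
  exact h1

theorem fam : S_FAM := fam_of famt

end Pool.Agent.N615.JM
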