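import Pool.Agent.N738.PJ.Exs
import Pool.Agent.N874.JM.Stm

/-!
# Project JM, part TCH: choice of residues (after `N738/PJ/Exs.lean` of helper738)
-/

set_option autoImplicit false

open Polynomial

namespace Pool.Agent.N615.JM

open Pool.Agent.N352.PJ Pool.Agent.N874.JM Pool.Agent.N738.PJ

/-- the polynomial for one prime, of degree `n` -/
theorem exists_hn (n : ℕ) (k : Type) [Field k] [Finite k] (hn : 1 ≤ n) (hk : ((n : ℕ) : k) ≠ 0)
    (Q : k[X]) (hm : Q.Monic) (hi : Irreducible Q) : ∃ h : k[X][X], h.Monic ∧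
      h.natDegree = n ∧ h.coeff (n - 1) = 0 ∧
      Irreducible (h.map (Ideal.Quotient.mk (Ideal.span {Q}))) := by
  classical
  have hmax : (Ideal.span {Q}).IsMaximal := PrincipalIdealRing.isMaximal_of_irreducible hi
  let _ : Field (k[X] ⧸ Ideal.span {Q}) := Ideal.Quotient.field _
  have h1 : Module.Finite k (AdjoinRoot Q) := hm.finite_adjoinRoot
  have h2 : Finite (AdjoinRoot Q) := Module.finite_of_finite k
  have hfin : Finite (k[X] ⧸ Ideal.span {Q}) := h2
  set φ := Ideal.Quotient.mk (Ideal.span {Q}) with hφ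
  have hF : ((n : ℕ) : k[X] ⧸ Ideal.span {Q}) ≠ 0 := by
    intro h0
    have h3 : (φ.comp C) ((n : ℕ) : k) = 0 := by rw [map_natCast, h0]
    exact hk ((map_eq_zero (φ.comp C)).mp h3)
  obtain ⟨r, hr1, hr2, hr3, hr4⟩ := exists_irr0 (k[X] ⧸ Ideal.span {Q}) n hn hF
  have hsur : ∀ y : k[X] ⧸ Ideal.span {Q}, ∃ x, φ x = y := Ideal.Quotient.mk_surjective
  choose s hs using hsur
  set P : k[X][X] := ∑ i ∈ Finset.range (n - 1), C (s (r.coeff i)) * X ^ i with hP
  have hPd : P.degree < ((n - 1 : ℕ) : WithBot ℕ) := by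
    rw [hP]
    refine lt_of_le_of_lt (degree_sum_le _ _) ?_
    rw [Finset.sup_lt_iff (WithBot.bot_lt_coe _)]
    intro i hi
    refine lt_of_le_of_lt (degree_C_mul_X_pow_le _ _) ?_
    exact_mod_cast Finset.mem_range.mp hi
  have hPd2 : P.degree < ((n : ℕ) : WithBot ℕ) :=
    hPd.trans (by exact_mod_cast (by omega : n - 1 < n))
  have hnd : (X ^ n + P).natDegree = n := by
    rw [natDegree_add_eq_left_of_degree_lt (by rw [degree_X_pow]; exact hPd2), natDegree_X_pow]
  refine ⟨X ^ n + P, monic_X_pow_add hPd2, hnd, ?_, ?_⟩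
  · rw [coeff_add, coeff_X_pow, if_neg (by omega), coeff_eq_zero_of_degree_lt hPd, add_zero]
  · have hmap : (X ^ n + P).map φ = r := by
      conv_rhs => rw [hr1.as_sum, hr3]
      rw [Polynomial.map_add, Polynomial.map_pow, map_X, hP, Polynomial.map_sum]
      congr 1
      obtain ⟨j, rfl⟩ : ∃ j, n = j + 1 := ⟨n - 1, by omega⟩
      rw [Nat.add_sub_cancel] at hr4 ⊢
      rw [Finset.sum_range_succ, hr4, C_0, zero_mul, add_zero]
      refine Finset.sum_congr rfl fun i _ => ?_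
      rw [Polynomial.map_mul, map_C, Polynomial.map_pow, map_X, hs]
    rw [hmap]
    exact hr2

/-- **JM/TCH.** -/
theorem tch : S_TCH := by
  intro g k _ _ hg hk T hT
  classical
  have hk1 : ((2 * g + 1 : ℕ) : k) ≠ 0 := fac_ne hk (by omega) le_rfl
  have hk2 : ((2 * g : ℕ) : k) ≠ 0 := fac_ne hk (by omega) (by omega)
  constructor
  · refine ⟨fun Q => if h : Q.Monic ∧ Irreducible Q then
      (exists_hn (2 * g + 1) k (by omega) hk1 Q h.1 h.2).choose else 0, fun Q hQ => ?_⟩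
    have h := hT Q hQ
    have h3 := (exists_hn (2 * g + 1) k (by omega) hk1 Q h.1 h.2).choose_spec
    beta_reduce
    rw [dif_pos h]
    exact ⟨h.1, h.2, h3.1, h3.2.1, h3.2.2.1, h3.2.2.2⟩
  · refine ⟨fun Q => if h : Q.Monic ∧ Irreducible Q then
      (exists_hn (2 * g) k (by omega) hk2 Q h.1 h.2).choose else 0, fun Q hQ => ?_⟩
    have h := hT Q hQ
    have h3 := (exists_hn (2 * g) k (by omega) hk2 Q h.1 h.2).choose_spec
    beta_reduce
    rw [dif_pos h]
    exact ⟨h.1, h.2, h3.1, h3.2.1, h3.2.2.1, h3.2.2.2⟩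

end Pool.Agent.N615.JM
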