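import Pool.Agent.N490.PP.Fam
import Pool.Agent.N352.PJ.Cnt
import Pool.Agent.N615.JM.Tch

/-!
# Project JM, part FAMT: the sieve with additional congruences, all genera

The small primes are put into the set `T`, so that only the primes of large degree have to be sieved.
-/

set_option autoImplicit false
set_option linter.all false

open Polynomial
open scoped Classical

namespace Pool.Agent.N615.JM

open Pool.Agent.N352.PJ Pool.Agent.N874.JM Pool.Agent.N738.PJ
open Pool.Agent.N874.PP (nm)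
open Pool.Agent.N490.PP.Fam (Irr Irr_finite Irr_le exists_monic q_pos lt_finite)

/-! ### The polynomial `pol a` -/

section disc

variable {g : ℕ} {R R' : Type} [CommRing R] [CommRing R']

theorem pol_coeff (a : Fin (2 * g) → R) (j : ℕ) :
    (pol a).coeff j = if j = 2 * g + 1 then 1 else if h : j < 2 * g then a ⟨j, h⟩ else 0 := by
  unfold pol
  rw [coeff_add, coeff_X_pow, finset_sum_coeff]
  have h1 : ∑ i : Fin (2 * g), (C (a i) * X ^ (i : ℕ)).coeff j =
      if h : j < 2 * g then a ⟨j, h⟩ else 0 := by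
    by_cases h : j < 2 * g
    · rw [dif_pos h, Finset.sum_eq_single ⟨j, h⟩]
      · rw [coeff_C_mul_X_pow, if_pos rfl]
      · intro i _ hi
        rw [coeff_C_mul_X_pow, if_neg]
        intro hj
        exact hi (Fin.ext hj.symm)
      · intro h'; exact absurd (Finset.mem_univ _) h'
    · rw [dif_neg h]
      apply Finset.sum_eq_zero
      intro i _
      rw [coeff_C_mul_X_pow, if_neg]
      have := i.2
      omega
  rw [h1]
  by_cases hj : j = 2 * g + 1
  · rw [if_pos hj, if_pos hj, dif_neg (by omega), add_zero]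
  · rw [if_neg hj, if_neg hj, zero_add]

theorem pol_lt (a : Fin (2 * g) → R) (j : Fin (2 * g)) : (pol a).coeff j = a j := by
  rw [pol_coeff, if_neg (by have := j.2; omega), dif_pos j.2]

theorem pol_tr (a : Fin (2 * g) → R) : (pol a).coeff (2 * g) = 0 := by
  rw [pol_coeff, if_neg (by omega), dif_neg (by omega)]

theorem pol_inj {a b : Fin (2 * g) → R} (h : pol a = pol b) : a = b := by
  funext j
  rw [← pol_lt a j, ← pol_lt b j, h]

theorem pol_deg [Nontrivial R] (a : Fin (2 * g) → R) : (pol a).natDegree = 2 * g + 1 := by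
  apply natDegree_eq_of_le_of_coeff_ne_zero
  · rw [natDegree_le_iff_coeff_eq_zero]
    intro j hj
    rw [pol_coeff, if_neg (by omega), dif_neg (by omega)]
  · rw [pol_coeff, if_pos rfl]
    exact one_ne_zero

theorem pol_monic [Nontrivial R] (a : Fin (2 * g) → R) : (pol a).Monic := by
  rw [Monic, leadingCoeff, pol_deg, pol_coeff, if_pos rfl]

theorem pol_eq [Nontrivial R] {f : R[X]} (hm : f.Monic) (hd : f.natDegree = 2 * g + 1)
    (ht : f.coeff (2 * g) = 0) : pol (fun j : Fin (2 * g) => f.coeff j) = f := by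
  ext j
  rw [pol_coeff]
  split_ifs with h1 h2
  · rw [h1, ← hd]; exact hm.coeff_natDegree.symm
  · rfl
  · rcases Nat.lt_or_ge j (2 * g + 1) with h3 | h3
    · have : j = 2 * g := by omega
      rw [this, ht]
    · rw [coeff_eq_zero_of_natDegree_lt (by omega)]

theorem pol_map (φ : R →+* R') (a : Fin (2 * g) → R) :
    (pol a).map φ = pol fun j => φ (a j) := by
  unfold pol
  rw [Polynomial.map_add, Polynomial.map_pow, map_X, Polynomial.map_sum]
  congr 1
  refine Finset.sum_congr rfl fun i _ => ?_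
  rw [Polynomial.map_mul, map_C, Polynomial.map_pow, map_X]

theorem dis_map (φ : R →+* R') (a : Fin (2 * g) → R) : φ (dis a) = dis fun j => φ (a j) := by
  unfold dis
  rw [← resultant_map_map, ← derivative_map, pol_map]

end disc

section fld

variable {g : ℕ} {F : Type} [Field F]

/-- the discriminant of a separable polynomial -/
theorem dis_ne {a : Fin (2 * g) → F} (h1 : ((2 * g + 1 : ℕ) : F) ≠ 0) (hs : (pol a).Separable) :
    dis a ≠ 0 := by
  have hd : (derivative (pol a)).natDegree = 2 * g := by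
    apply natDegree_eq_of_le_of_coeff_ne_zero
    · refine (natDegree_derivative_le _).trans ?_
      rw [pol_deg]
      omega
    · rw [coeff_derivative, pol_coeff, if_pos rfl, one_mul]
      exact_mod_cast h1
  have h2 := resultant_ne_zero (pol a) (derivative (pol a)) hs
  rw [pol_deg, hd] at h2
  exact h2

theorem sep_of_irr {n : ℕ} (hn : ((n + 1 : ℕ) : F) ≠ 0) {f : F[X]} (hm : f.Monic)
    (hd : f.natDegree = n + 1) (hi : Irreducible f) : f.Separable := by
  rw [separable_iff_derivative_ne_zero hi]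
  intro h0
  have h1 : (derivative f).coeff n = 0 := by rw [h0, coeff_zero]
  rw [coeff_derivative, ← hd, hm.coeff_natDegree, one_mul] at h1
  exact hn (by exact_mod_cast h1)

end fld

/-! ### Residues -/

section poly

variable {k : Type} [Field k] {g : ℕ}

theorem coprime_of_ne {π ρ : k[X]} (hπ : π.Monic ∧ Irreducible π) (hρ : ρ.Monic ∧ Irreducible ρ)
    (h : π ≠ ρ) : IsCoprime π ρ := by
  rw [hπ.2.coprime_iff_not_dvd]
  intro hd
  exact h (eq_of_monic_of_associated hπ.1 hρ.1 (hπ.2.associated_of_dvd hρ.2 hd))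

/-- the Chinese remainder theorem -/
theorem crt2 {ι : Type} {M N : k[X]} (h : IsCoprime M N) (a b : ι → k[X]) :
    ∃ c : ι → k[X], (∀ j, M ∣ c j - a j) ∧ ∀ j, N ∣ c j - b j := by
  obtain ⟨u, v, huv⟩ := h
  refine ⟨fun j => a j + (b j - a j) * (u * M), fun j => ⟨(b j - a j) * u, by ring⟩, fun j => ?_⟩
  refine ⟨(a j - b j) * v, ?_⟩
  linear_combination (b j - a j) * huv

theorem crtU {ι : Type} (U : Finset k[X]) (hU : ∀ Q ∈ U, Q.Monic ∧ Irreducible Q)
    (B : k[X] → ι → k[X]) : ∃ A : ι → k[X], ∀ Q ∈ U, ∀ j, Q ∣ A j - B Q j := by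
  induction U using Finset.induction_on with
  | empty => exact ⟨fun _ => 0, fun Q hQ => absurd hQ (Finset.notMem_empty _)⟩
  | insert Q U hQ ih =>
    obtain ⟨A, hA⟩ := ih fun P hP => hU P (Finset.mem_insert_of_mem hP)
    have hc : IsCoprime Q (∏ P ∈ U, P) := by
      apply IsCoprime.prod_right
      intro P hP
      exact coprime_of_ne (hU Q (Finset.mem_insert_self _ _))
        (hU P (Finset.mem_insert_of_mem hP)) (fun h => hQ (h ▸ hP))
    obtain ⟨c, hc1, hc2⟩ := crt2 hc (B Q) A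
    refine ⟨c, fun P hP j => ?_⟩
    rcases Finset.mem_insert.1 hP with rfl | hP
    · exact hc1 j
    · have h1 := (Finset.dvd_prod_of_mem (fun P => P) hP).trans (hc2 j)
      have h2 := dvd_add h1 (hA P hP j)
      rwa [sub_add_sub_cancel] at h2

theorem prod_sqf (U : Finset k[X]) (hU : ∀ Q ∈ U, Q.Monic ∧ Irreducible Q) :
    Squarefree (∏ Q ∈ U, Q) := by
  induction U using Finset.induction_on with
  | empty => rw [Finset.prod_empty]; exact squarefree_one
  | insert Q U hQ ih =>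
    have hc : IsCoprime Q (∏ P ∈ U, P) := by
      apply IsCoprime.prod_right
      intro P hP
      exact coprime_of_ne (hU Q (Finset.mem_insert_self _ _))
        (hU P (Finset.mem_insert_of_mem hP)) (fun h => hQ (h ▸ hP))
    rw [Finset.prod_insert hQ]
    exact squarefree_mul_iff.2 ⟨hc.isRelPrime, (hU Q (Finset.mem_insert_self _ _)).2.squarefree,
      ih fun P hP => hU P (Finset.mem_insert_of_mem hP)⟩

theorem mem_of_dvd (U : Finset k[X]) (hU : ∀ Q ∈ U, Q.Monic ∧ Irreducible Q) {π : k[X]}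
    (h1 : π.Monic) (h2 : Irreducible π) (h : π ∣ ∏ Q ∈ U, Q) : π ∈ U := by
  obtain ⟨Q, hQ, hd⟩ := h2.prime.exists_mem_finset_dvd h
  have : π = Q := eq_of_monic_of_associated h1 (hU Q hQ).1
    (h2.associated_of_dvd (hU Q hQ).2 hd)
  rw [this]; exact hQ

theorem nm_mul {a b : k[X]} (ha : a ≠ 0) (hb : b ≠ 0) : nm (a * b) = nm a * nm b := by
  unfold nm
  rw [natDegree_mul ha hb, pow_add]

theorem nm_pow (a : k[X]) (n : ℕ) : nm (a ^ n) = nm a ^ n := by
  unfold nm
  rw [natDegree_pow, mul_comm, pow_mul]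

theorem nm_prod (U : Finset k[X]) (hU : ∀ Q ∈ U, Q.Monic) : nm (∏ Q ∈ U, Q) = ∏ Q ∈ U, nm Q := by
  unfold nm
  rw [natDegree_prod_of_monic U (fun Q => Q) hU, Finset.prod_pow_eq_pow_sum]

theorem nm_pos [Finite k] (Q : k[X]) : 0 < nm Q := by
  unfold nm
  have := q_pos (k := k)
  positivity

/-- congruences modulo `Q` -/
theorem cg_of {Q : k[X]} {a : Fin (2 * g) → k[X]} {F : k[X][X]} (hm : F.Monic)
    (hd : F.natDegree = 2 * g + 1) (ht : F.coeff (2 * g) = 0)
    (h : ∀ j : Fin (2 * g), Q ∣ a j - F.coeff j) : Cg Q (pol a) F := by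
  intro j
  rw [← pol_eq hm hd ht, pol_coeff, pol_coeff]
  split_ifs with h1 h2
  · rw [sub_self]; exact dvd_zero _
  · exact h ⟨j, h2⟩
  · rw [sub_self]; exact dvd_zero _

theorem map_cg {Q : k[X]} {f F : k[X][X]} (h : Cg Q f F) :
    f.map (Ideal.Quotient.mk (Ideal.span {Q})) = F.map (Ideal.Quotient.mk (Ideal.span {Q})) := by
  ext j
  rw [coeff_map, coeff_map]
  exact (Ideal.Quotient.eq.2 (Ideal.mem_span_singleton.2 (h j)))

/-- the discriminant at the primes where the reduction is separable -/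
theorem not_dvd {Q : k[X]} (hQ : Irreducible Q) (h1 : ((2 * g + 1 : ℕ) : k) ≠ 0)
    {a : Fin (2 * g) → k[X]}
    (hs : ((pol a).map (Ideal.Quotient.mk (Ideal.span {Q}))).Separable) : ¬ Q ∣ dis a := by
  intro hd
  have hmax : (Ideal.span {Q}).IsMaximal := PrincipalIdealRing.isMaximal_of_irreducible hQ
  letI : Field (k[X] ⧸ Ideal.span {Q}) := Ideal.Quotient.field _
  set φ := Ideal.Quotient.mk (Ideal.span {Q}) with hφ
  have h2 : ((2 * g + 1 : ℕ) : k[X] ⧸ Ideal.span {Q}) ≠ 0 := by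
    intro h0
    have h3 : (φ.comp C) ((2 * g + 1 : ℕ) : k) = 0 := by rw [map_natCast, h0]
    exact h1 ((map_eq_zero (φ.comp C)).mp h3)
  rw [pol_map] at hs
  apply dis_ne h2 hs
  rw [← dis_map, hφ, Ideal.Quotient.eq_zero_iff_mem, Ideal.mem_span_singleton]
  exact hd

/-- the reductions at the primes of `T` -/
theorem sepT {Q : k[X]} (hQ : Irreducible Q) (h1 : ((2 * g + 1 : ℕ) : k) ≠ 0) {F : k[X][X]}
    (hm : F.Monic) (hd : F.natDegree = 2 * g + 1)
    (hi : Irreducible (F.map (Ideal.Quotient.mk (Ideal.span {Q})))) :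
    (F.map (Ideal.Quotient.mk (Ideal.span {Q}))).Separable := by
  have hmax : (Ideal.span {Q}).IsMaximal := PrincipalIdealRing.isMaximal_of_irreducible hQ
  letI : Field (k[X] ⧸ Ideal.span {Q}) := Ideal.Quotient.field _
  set φ := Ideal.Quotient.mk (Ideal.span {Q}) with hφ
  have h2 : ((2 * g + 1 : ℕ) : k[X] ⧸ Ideal.span {Q}) ≠ 0 := by
    intro h0
    have h3 : (φ.comp C) ((2 * g + 1 : ℕ) : k) = 0 := by rw [map_natCast, h0]
    exact h1 ((map_eq_zero (φ.comp C)).mp h3)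
  exact sep_of_irr h2 (hm.map φ) (by rw [hm.natDegree_map, hd]) hi

/-- the reductions at the primes of `S` -/
theorem sepS {Q : k[X]} (hQ : Irreducible Q) (hg : 1 ≤ g) (h1 : ((2 * g : ℕ) : k) ≠ 0)
    {h : k[X][X]} (hm : h.Monic) (hd : h.natDegree = 2 * g)
    (hi : Irreducible (h.map (Ideal.Quotient.mk (Ideal.span {Q})))) :
    ((X * h).map (Ideal.Quotient.mk (Ideal.span {Q}))).Separable := by
  have hmax : (Ideal.span {Q}).IsMaximal := PrincipalIdealRing.isMaximal_of_irreducible hQ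
  letI : Field (k[X] ⧸ Ideal.span {Q}) := Ideal.Quotient.field _
  set φ := Ideal.Quotient.mk (Ideal.span {Q}) with hφ
  have h2 : ((2 * g : ℕ) : k[X] ⧸ Ideal.span {Q}) ≠ 0 := by
    intro h0
    have h3 : (φ.comp C) ((2 * g : ℕ) : k) = 0 := by rw [map_natCast, h0]
    exact h1 ((map_eq_zero (φ.comp C)).mp h3)
  have hdm : (h.map φ).natDegree = 2 * g := by rw [hm.natDegree_map, hd]
  rw [Polynomial.map_mul, map_X]
  apply Separable.mul separable_X
  · have e : 2 * g = (2 * g - 1) + 1 := by omega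
    exact sep_of_irr (n := 2 * g - 1) (by rw [← e]; exact h2) (hm.map φ) (by rw [hdm]; exact e) hi
  · rw [irreducible_X.coprime_iff_not_dvd]
    intro hdv
    have h3 := natDegree_eq_of_degree_eq
      (degree_eq_degree_of_associated (irreducible_X.associated_of_dvd hi hdv))
    rw [natDegree_X, hdm] at h3
    omega

/-- the constant in `S_LD` -/
def Kg (g : ℕ) : ℕ := 2 * g + 2 * g * (2 * g - 1) * (2 * g + 1)

variable [Finite k]

/-- one prime -/
theorem one_prime (hLD : S_LD) (hBX : S_BX) (hg : 1 ≤ g) (hk : ((2 * g + 1).factorial : k) ≠ 0)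
    {N : ℕ} {r W P : k[X]} (A : Fin (2 * g) → k[X]) (hW : W ≠ 0) (hP : Irreducible P)
    (hPW : ¬ P ∣ W) (hdeg : W.natDegree + 2 * P.natDegree ≤ 4 * N) :
    {a ∈ Bx g N r W A | P ^ 2 ∣ dis a}.ncard * nm P ^ 2 ≤ Kg g * (Bx g N r W A).ncard := by
  have hP0 : P ≠ 0 := hP.ne_zero
  have hc : IsCoprime W (P ^ 2) :=
    ((hP.coprime_iff_not_dvd.2 hPW).symm).pow_right
  set Rs : Set (Fin (2 * g) → k[X]) :=
    {a | (∀ j, (a j).degree < 2 * P.natDegree) ∧ P ^ 2 ∣ dis a} with hRs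
  have hRfin : Rs.Finite := by
    have h1 : (Set.univ.pi fun _ : Fin (2 * g) =>
        (degreeLT k (2 * P.natDegree) : Set k[X])).Finite :=
      Set.Finite.pi fun _ => lt_finite _
    refine h1.subset fun a ha => ?_
    intro j _
    rw [SetLike.mem_coe, mem_degreeLT]
    exact_mod_cast ha.1 j
  have hex := fun a : Fin (2 * g) → k[X] => crt2 hc A a
  choose c hc1 hc2 using hex
  have hsub : {a ∈ Bx g N r W A | P ^ 2 ∣ dis a} ⊆
      ⋃ b ∈ hRfin.toFinset, Bx g N r (W * P ^ 2) (c b) := by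
    rintro a ⟨ha, hPa⟩
    have hP2 : P ^ 2 ≠ 0 := pow_ne_zero 2 hP0
    have hmod : ∀ j, P ^ 2 ∣ a j - a j % P ^ 2 := fun j =>
      ⟨a j / P ^ 2, by linear_combination -(EuclideanDomain.div_add_mod (a j) (P ^ 2))⟩
    rw [Set.mem_iUnion₂]
    refine ⟨fun j => a j % P ^ 2, ?_, ?_⟩
    · rw [Set.Finite.mem_toFinset]
      refine ⟨fun j => ?_, ?_⟩
      · have h1 : (a j % P ^ 2).degree < (P ^ 2).degree := EuclideanDomain.mod_lt _ hP2
        rw [degree_eq_natDegree hP2, natDegree_pow] at h1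
        exact_mod_cast h1
      · rw [← Ideal.mem_span_singleton, ← Ideal.Quotient.eq_zero_iff_mem, dis_map]
        have h2 : (Ideal.Quotient.mk (Ideal.span {P ^ 2})) (dis a) = 0 :=
          Ideal.Quotient.eq_zero_iff_mem.2 (Ideal.mem_span_singleton.2 hPa)
        rw [dis_map] at h2
        rw [← h2]
        congr 1
        funext j
        exact (Ideal.Quotient.eq.2 (Ideal.mem_span_singleton.2 (hmod j))).symm
    · intro j
      refine ⟨(ha j).1, (ha j).2.1, ?_⟩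
      apply hc.mul_dvd
      · have h1 := dvd_sub (ha j).2.2 (hc1 (fun j => a j % P ^ 2) j)
        rwa [sub_sub_sub_cancel_right] at h1
      · have h1 := dvd_sub (hmod j) (hc2 (fun j => a j % P ^ 2) j)
        rwa [sub_sub_sub_cancel_right] at h1
  have hWP : W * P ^ 2 ≠ 0 := mul_ne_zero hW (pow_ne_zero 2 hP0)
  have hWPd : (W * P ^ 2).natDegree ≤ 4 * N := by
    rw [natDegree_mul hW (pow_ne_zero 2 hP0), natDegree_pow]
    exact hdeg
  have hb := fun b => hBX g k N r (W * P ^ 2) (c b) hWP hWPd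
  have hB0 := (hBX g k N r W A hW (by omega)).2
  have hnm : nm (W * P ^ 2) = nm W * nm P ^ 2 := by
    rw [nm_mul hW (pow_ne_zero 2 hP0), nm_pow]
  have hW' := nm_pos W
  have hP' := nm_pos P
  have hbig : 0 < nm (W * P ^ 2) ^ (2 * g) := pow_pos (nm_pos _) _
  have hfin : (⋃ b ∈ hRfin.toFinset, Bx g N r (W * P ^ 2) (c b)).Finite :=
    Set.Finite.biUnion (Finset.finite_toSet _) fun b _ => (hb b).1
  have h1 : {a ∈ Bx g N r W A | P ^ 2 ∣ dis a}.ncard ≤
      ∑ b ∈ hRfin.toFinset, (Bx g N r (W * P ^ 2) (c b)).ncard :=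
    (Set.ncard_le_ncard hsub hfin).trans (Finset.set_ncard_biUnion_le _ _)
  have h2 : {a ∈ Bx g N r W A | P ^ 2 ∣ dis a}.ncard * nm (W * P ^ 2) ^ (2 * g) ≤
      Rs.ncard * Nat.card k ^ (2 * N * dd g) := by
    calc _ ≤ (∑ b ∈ hRfin.toFinset, (Bx g N r (W * P ^ 2) (c b)).ncard) *
          nm (W * P ^ 2) ^ (2 * g) := Nat.mul_le_mul_right _ h1
      _ = ∑ b ∈ hRfin.toFinset, Nat.card k ^ (2 * N * dd g) := by
          rw [Finset.sum_mul]
          exact Finset.sum_congr rfl fun b _ => (hb b).2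
      _ = Rs.ncard * Nat.card k ^ (2 * N * dd g) := by
          rw [Finset.sum_const, smul_eq_mul, Set.ncard_eq_toFinset_card _ hRfin]
  have h3 := hLD g k hg hk P hP
  rw [← hRs] at h3
  have h4 : ({a ∈ Bx g N r W A | P ^ 2 ∣ dis a}.ncard * nm P ^ 2) * nm (W * P ^ 2) ^ (2 * g) ≤
      (Kg g * (Bx g N r W A).ncard) * nm (W * P ^ 2) ^ (2 * g) := by
    calc _ = ({a ∈ Bx g N r W A | P ^ 2 ∣ dis a}.ncard * nm (W * P ^ 2) ^ (2 * g)) * nm P ^ 2 := by
          ring
      _ ≤ (Rs.ncard * Nat.card k ^ (2 * N * dd g)) * nm P ^ 2 := Nat.mul_le_mul_right _ h2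
      _ = (Rs.ncard * nm P ^ 2) * Nat.card k ^ (2 * N * dd g) := by ring
      _ ≤ (Kg g * nm P ^ (4 * g)) * Nat.card k ^ (2 * N * dd g) := Nat.mul_le_mul_right _ h3
      _ = (Kg g * nm P ^ (4 * g)) * ((Bx g N r W A).ncard * nm W ^ (2 * g)) := by rw [hB0]
      _ = (Kg g * (Bx g N r W A).ncard) * nm (W * P ^ 2) ^ (2 * g) := by
          rw [hnm, mul_pow, ← pow_mul]
          ring
  exact Nat.le_of_mul_le_mul_right h4 hbig

/-- geometric sum -/
theorem geom {x : ℝ} (h0 : 0 ≤ x) (h1 : x ≤ 1 / 2) (D N : ℕ) :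
    ∑ d ∈ Finset.Ioc D N, x ^ d ≤ x ^ D := by
  rcases Nat.lt_or_ge N D with h | h
  · rw [Finset.Ioc_eq_empty (by omega), Finset.sum_empty]
    positivity
  · have key : ∑ d ∈ Finset.Ioc D N, x ^ d ≤ x ^ D - x ^ N := by
      induction N, h using Nat.le_induction with
      | base => simp
      | succ n hn ih =>
        rw [Finset.sum_Ioc_succ_top (by omega)]
        have h2 : x ^ (n + 1) ≤ 1 / 2 * x ^ n := by
          rw [pow_succ, mul_comm]
          exact mul_le_mul_of_nonneg_right h1 (by positivity)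
        linarith
    have : 0 ≤ x ^ N := by positivity
    linarith

/-- all the primes of degree between `D` and `N` -/
theorem mid_primes (hLD : S_LD) (hBX : S_BX) (hg : 1 ≤ g) (hk : ((2 * g + 1).factorial : k) ≠ 0)
    {N D : ℕ} {r W : k[X]} (A : Fin (2 * g) → k[X]) (hW : W ≠ 0) (hdeg : W.natDegree ≤ 2 * N)
    (hD : 4 * Kg g ≤ Nat.card k ^ D) :
    ({a ∈ Bx g N r W A | ∃ P : k[X], P.Monic ∧ Irreducible P ∧ D < P.natDegree ∧
      P.natDegree ≤ N ∧ ¬ P ∣ W ∧ P ^ 2 ∣ dis a}.ncard : ℝ) ≤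
      1 / 4 * ((Bx g N r W A).ncard : ℝ) := by
  have hBfin := (hBX g k N r W A hW (by omega)).1
  set B0 := (Bx g N r W A).ncard with hB0
  have hq := q_pos (k := k)
  have hq1 : (1 : ℝ) < Nat.card k := by exact_mod_cast hq
  have hq2 : (2 : ℝ) ≤ Nat.card k := by exact_mod_cast hq
  set J : ℕ → Finset k[X] := fun d => (Irr_finite (k := k) d).toFinset.filter fun P => ¬ P ∣ W with hJ
  have hsub : {a ∈ Bx g N r W A | ∃ P : k[X], P.Monic ∧ Irreducible P ∧ D < P.natDegree ∧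
      P.natDegree ≤ N ∧ ¬ P ∣ W ∧ P ^ 2 ∣ dis a} ⊆
      ⋃ d ∈ Finset.Ioc D N, ⋃ P ∈ J d, {a ∈ Bx g N r W A | P ^ 2 ∣ dis a} := by
    rintro a ⟨ha, P, h1, h2, h3, h4, h5, h6⟩
    rw [Set.mem_iUnion₂]
    refine ⟨P.natDegree, Finset.mem_Ioc.2 ⟨h3, h4⟩, ?_⟩
    rw [Set.mem_iUnion₂]
    refine ⟨P, ?_, ha, h6⟩
    rw [hJ, Finset.mem_filter, Set.Finite.mem_toFinset]
    exact ⟨⟨h1, h2, rfl⟩, h5⟩
  have hfin : (⋃ d ∈ Finset.Ioc D N, ⋃ P ∈ J d, {a ∈ Bx g N r W A | P ^ 2 ∣ dis a}).Finite := by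
    refine hBfin.subset ?_
    intro a ha
    rw [Set.mem_iUnion₂] at ha
    obtain ⟨d, _, ha⟩ := ha
    rw [Set.mem_iUnion₂] at ha
    obtain ⟨P, _, ha⟩ := ha
    exact ha.1
  have h1 : {a ∈ Bx g N r W A | ∃ P : k[X], P.Monic ∧ Irreducible P ∧ D < P.natDegree ∧
      P.natDegree ≤ N ∧ ¬ P ∣ W ∧ P ^ 2 ∣ dis a}.ncard ≤
      ∑ d ∈ Finset.Ioc D N, ∑ P ∈ J d, {a ∈ Bx g N r W A | P ^ 2 ∣ dis a}.ncard :=
    (Set.ncard_le_ncard hsub hfin).trans ((Finset.set_ncard_biUnion_le _ _).trans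
      (Finset.sum_le_sum fun d _ => Finset.set_ncard_biUnion_le _ _))
  have h2 : ∀ d ∈ Finset.Ioc D N, (∑ P ∈ J d, ({a ∈ Bx g N r W A | P ^ 2 ∣ dis a}.ncard : ℝ)) ≤
      Kg g * B0 * (1 / (Nat.card k : ℝ)) ^ d := by
    intro d hd
    rw [Finset.mem_Ioc] at hd
    have h3 : ∀ P ∈ J d, ({a ∈ Bx g N r W A | P ^ 2 ∣ dis a}.ncard : ℝ) ≤
        Kg g * B0 / ((Nat.card k : ℝ) ^ d) ^ 2 := by
      intro P hP
      rw [hJ, Finset.mem_filter, Set.Finite.mem_toFinset] at hP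
      obtain ⟨⟨h4, h5, h6⟩, h7⟩ := hP
      rw [le_div_iff₀ (by positivity)]
      have h8 := one_prime hLD hBX hg hk (r := r) (N := N) A hW h5 h7 (by rw [h6]; omega)
      have h9 : nm P = Nat.card k ^ d := by unfold nm; rw [h6]
      rw [h9] at h8
      exact_mod_cast h8
    have h4 : ((J d).card : ℝ) ≤ (Nat.card k : ℝ) ^ d := by
      have h5 : (J d).card ≤ (Irr k d).ncard := by
        rw [Set.ncard_eq_toFinset_card _ (Irr_finite (k := k) d)]
        exact Finset.card_filter_le _ _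
      exact_mod_cast h5.trans (Irr_le d)
    calc (∑ P ∈ J d, ({a ∈ Bx g N r W A | P ^ 2 ∣ dis a}.ncard : ℝ)) ≤
          ∑ P ∈ J d, Kg g * B0 / ((Nat.card k : ℝ) ^ d) ^ 2 := Finset.sum_le_sum h3
      _ = (J d).card * (Kg g * B0 / ((Nat.card k : ℝ) ^ d) ^ 2) := by
          rw [Finset.sum_const, nsmul_eq_mul]
      _ ≤ (Nat.card k : ℝ) ^ d * (Kg g * B0 / ((Nat.card k : ℝ) ^ d) ^ 2) :=
          mul_le_mul_of_nonneg_right h4 (by positivity)
      _ = Kg g * B0 * (1 / (Nat.card k : ℝ)) ^ d := by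
          have : (Nat.card k : ℝ) ^ d ≠ 0 := by positivity
          rw [one_div, inv_pow]
          field_simp
  have h3 : (∑ d ∈ Finset.Ioc D N, ∑ P ∈ J d, ({a ∈ Bx g N r W A | P ^ 2 ∣ dis a}.ncard : ℝ)) ≤
      Kg g * B0 * (1 / (Nat.card k : ℝ)) ^ D := by
    calc _ ≤ ∑ d ∈ Finset.Ioc D N, Kg g * B0 * (1 / (Nat.card k : ℝ)) ^ d := Finset.sum_le_sum h2
      _ = Kg g * B0 * ∑ d ∈ Finset.Ioc D N, (1 / (Nat.card k : ℝ)) ^ d := by rw [Finset.mul_sum]
      _ ≤ Kg g * B0 * (1 / (Nat.card k : ℝ)) ^ D := by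
          apply mul_le_mul_of_nonneg_left _ (by positivity)
          apply geom (by positivity)
          rw [div_le_div_iff₀ (by positivity) (by norm_num)]
          linarith
  have h4 : (4 * Kg g : ℝ) ≤ (Nat.card k : ℝ) ^ D := by exact_mod_cast hD
  have h5 : (Kg g : ℝ) * B0 * (1 / (Nat.card k : ℝ)) ^ D ≤ 1 / 4 * B0 := by
    have h6 : (Kg g : ℝ) * (1 / (Nat.card k : ℝ)) ^ D ≤ 1 / 4 := by
      rw [one_div, inv_pow, ← div_eq_mul_inv, div_le_iff₀ (by positivity)]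
      linarith
    calc (Kg g : ℝ) * B0 * (1 / (Nat.card k : ℝ)) ^ D =
          ((Kg g : ℝ) * (1 / (Nat.card k : ℝ)) ^ D) * B0 := by ring
      _ ≤ 1 / 4 * B0 := mul_le_mul_of_nonneg_right h6 (Nat.cast_nonneg _)
  refine le_trans ?_ (h3.trans h5)
  exact_mod_cast h1

/-- the family is finite -/
theorem famT_fin (hBX : S_BX) {N : ℕ} {r : k[X]} {S : Finset k[X]} {h : k[X] → k[X][X]}
    {T : Finset k[X]} {A : k[X] → k[X][X]} : {f : k[X][X] | FamT g N r S h T A f}.Finite := by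
  refine (((hBX g k N r 1 (fun _ => 0) one_ne_zero (by simp)).1).image pol).subset ?_
  intro f hf
  refine ⟨fun j => f.coeff j, fun j => ⟨?_, ?_, one_dvd _⟩, ?_⟩
  · exact hf.fam.ht.ht j (by have := j.2; omega)
  · exact hf.fam.inf j (by have := j.2; omega)
  · exact pol_eq hf.fam.ht.mon hf.fam.ht.deg hf.fam.ht.tr

/-- the core: all the small primes are in `S ∪ T` -/
theorem core (hLD : S_LD) (hBX : S_BX) (hLP : S_LP) (hg : 1 ≤ g)
    (hk : ((2 * g + 1).factorial : k) ≠ 0) {D : ℕ} (hD : 4 * Kg g ≤ Nat.card k ^ D) {r : k[X]}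
    (hr : GoodR g r) (S : Finset k[X]) (h : k[X] → k[X][X]) (hS : GoodS g S h)
    (T : Finset k[X]) (A : k[X] → k[X][X]) (hT : GoodT g T A) (hdis : Disjoint S T)
    (hsm : ∀ P : k[X], P.Monic → Irreducible P → P.natDegree ≤ D → P ∈ S ∪ T) :
    ∃ N₀ : ℕ, ∀ N ≥ N₀, (Nat.card k : ℝ) ^ (2 * N * dd g) ≤
      2 * ((∏ Q ∈ S ∪ T, nm Q ^ (2 * g) : ℕ) : ℝ) *
        ({f : k[X][X] | FamT g N r S h T A f}.ncard : ℝ) := by
  have hk1 : ((2 * g + 1 : ℕ) : k) ≠ 0 := fac_ne hk (by omega) le_rfl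
  have hk2 : ((2 * g : ℕ) : k) ≠ 0 := fac_ne hk (by omega) (by omega)
  have hU : ∀ Q ∈ S ∪ T, Q.Monic ∧ Irreducible Q := by
    intro Q hQ
    rcases Finset.mem_union.1 hQ with hQ | hQ
    · exact ⟨(hS Q hQ).1, (hS Q hQ).2.1⟩
    · exact ⟨(hT Q hQ).1, (hT Q hQ).2.1⟩
  set W : k[X] := ∏ Q ∈ S ∪ T, Q with hWdef
  have hWsq : Squarefree W := prod_sqf _ hU
  have hWm : W.Monic := monic_prod_of_monic _ _ fun Q hQ => (hU Q hQ).1
  have hW0 : W ≠ 0 := hWm.ne_zero
  have hnW : nm W ^ (2 * g) = ∏ Q ∈ S ∪ T, nm Q ^ (2 * g) := by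
    rw [hWdef, nm_prod _ fun Q hQ => (hU Q hQ).1, Finset.prod_pow]
  -- the polynomial prescribed at `Q`
  set F : k[X] → k[X][X] := fun Q => if Q ∈ S then X * h Q else A Q with hF
  have hFS : ∀ Q ∈ S, F Q = X * h Q := fun Q hQ => if_pos hQ
  have hFT : ∀ Q ∈ T, F Q = A Q := fun Q hQ =>
    if_neg (fun h' => (Finset.disjoint_left.1 hdis h') hQ)
  have hFp : ∀ Q ∈ S ∪ T, (F Q).Monic ∧ (F Q).natDegree = 2 * g + 1 ∧ (F Q).coeff (2 * g) = 0 ∧
      ((F Q).map (Ideal.Quotient.mk (Ideal.span {Q}))).Separable := by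
    intro Q hQ
    rcases Finset.mem_union.1 hQ with hQ | hQ
    · obtain ⟨h1, h2, h3, h4, h5, h6⟩ := hS Q hQ
      rw [hFS Q hQ]
      refine ⟨monic_X.mul h3, ?_, ?_, sepS h2 hg hk2 h3 h4 h6⟩
      · rw [monic_X.natDegree_mul h3, natDegree_X, h4]; ring
      · obtain ⟨j, hj⟩ : ∃ j, 2 * g = j + 1 := ⟨2 * g - 1, by omega⟩
        rw [hj] at h5 ⊢
        rw [coeff_X_mul]
        simpa using h5
    · obtain ⟨h1, h2, h3, h4, h5, h6⟩ := hT Q hQ
      rw [hFT Q hQ]
      exact ⟨h3, h4, h5, sepT h2 hk1 h3 h4 h6⟩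
  obtain ⟨A', hA'⟩ := crtU (ι := Fin (2 * g)) (S ∪ T) hU fun Q j => (F Q).coeff j
  obtain ⟨N₁, hN₁⟩ := hLP g k hg hk r W A' hWsq (1 / 4) (by norm_num)
  refine ⟨max N₁ (W.natDegree), fun N hN => ?_⟩
  have hNa : N₁ ≤ N := (le_max_left _ _).trans hN
  have hNb : W.natDegree ≤ N := (le_max_right _ _).trans hN
  have hBfin := (hBX g k N r W A' hW0 (by omega)).1
  have hBcard := (hBX g k N r W A' hW0 (by omega)).2
  have hbig := hN₁ N hNa
  have hmid := mid_primes hLD hBX hg hk (r := r) (N := N) A' hW0 (by omega) hD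
  set B := Bx g N r W A' with hB
  set X1 : Set (Fin (2 * g) → k[X]) := {a ∈ B | ∃ P : k[X], P.Monic ∧ Irreducible P ∧
    D < P.natDegree ∧ P.natDegree ≤ N ∧ ¬ P ∣ W ∧ P ^ 2 ∣ dis a} with hX1
  set X2 : Set (Fin (2 * g) → k[X]) := {a ∈ B | ∃ P : k[X], Irreducible P ∧ N < P.natDegree ∧
    ¬ P ∣ W ∧ P ^ 2 ∣ dis a} with hX2
  have hcg : ∀ a ∈ B, ∀ Q ∈ S ∪ T, Cg Q (pol a) (F Q) := by
    intro a ha Q hQ
    obtain ⟨h1, h2, h3, _⟩ := hFp Q hQ
    apply cg_of h1 h2 h3
    intro j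
    have h4 : Q ∣ a j - A' j := (Finset.dvd_prod_of_mem (fun Q => Q) hQ).trans (ha j).2.2
    have h5 := dvd_add h4 (hA' Q hQ j)
    rwa [sub_add_sub_cancel] at h5
  have hgood : ∀ a ∈ B, a ∉ X1 → a ∉ X2 → FamT g N r S h T A (pol a) := by
    intro a ha hx1 hx2
    refine ⟨⟨⟨pol_monic a, pol_deg a, pol_tr a, ?_⟩, ?_, ?_, ?_⟩, ?_⟩
    · intro j hj
      rcases Nat.lt_or_ge j (2 * g) with h1 | h1
      · have := (ha ⟨j, h1⟩).1
        rw [pol_coeff, if_neg (by omega), dif_pos h1]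
        exact this
      · have : j = 2 * g := by omega
        rw [this, pol_tr, natDegree_zero]
        exact Nat.zero_le _
    · intro j hj
      rcases Nat.lt_or_ge j (2 * g) with h1 | h1
      · have := (ha ⟨j, h1⟩).2.1
        rw [pol_coeff, if_neg (by omega), dif_pos h1]
        exact this
      · have : j = 2 * g := by omega
        rw [this, pol_tr, coeff_zero, hr.2.2.2]
    · intro Q hQ
      rw [← hFS Q hQ]
      exact hcg a ha Q (Finset.mem_union_left _ hQ)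
    · have hno : ∀ P : k[X], Irreducible P → ¬ P * P ∣ dis a := by
        intro P hP hd
        obtain ⟨π, h1, h2, h3⟩ := exists_monic hP
        have hd2 : π ^ 2 ∣ dis a := by
          rw [pow_two]
          exact (mul_dvd_mul h3.dvd h3.dvd).trans hd
        have hnW' : ¬ π ∣ W := by
          intro hπ
          have hmem := mem_of_dvd _ hU h1 h2 hπ
          have h4 := hcg a ha π hmem
          have h5 := (hFp π hmem).2.2.2
          rw [← map_cg h4] at h5
          exact not_dvd h2 hk1 h5 ((dvd_pow_self π two_ne_zero).trans hd2)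
        have hD' : D < π.natDegree := by
          by_contra hc
          exact hnW' (Finset.dvd_prod_of_mem (fun Q => Q) (hsm π h1 h2 (not_lt.1 hc)))
        rcases Nat.lt_or_ge N π.natDegree with h4 | h4
        · exact hx2 ⟨ha, π, h2, h4, hnW', hd2⟩
        · exact hx1 ⟨ha, π, h1, h2, hD', h4, hnW', hd2⟩
      show Squarefree (dis a)
      rcases (irreducible_sq_not_dvd_iff_eq_zero_and_no_irreducibles_or_squarefree (dis a)).1 hno
        with h1 | h1
      · exact absurd irreducible_X (h1.2 X)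
      · exact h1
    · intro Q hQ
      rw [← hFT Q hQ]
      exact hcg a ha Q (Finset.mem_union_right _ hQ)
  have hc1 : (B \ (X1 ∪ X2)).ncard ≤ {f : k[X][X] | FamT g N r S h T A f}.ncard := by
    apply Set.ncard_le_ncard_of_injOn pol _ _ (famT_fin hBX)
    · intro a ha
      exact hgood a ha.1 (fun h' => ha.2 (Or.inl h')) (fun h' => ha.2 (Or.inr h'))
    · intro a _ b _ hab
      exact pol_inj hab
  have hX1f : X1.Finite := hBfin.subset fun _ h' => h'.1
  have hX2f : X2.Finite := hBfin.subset fun _ h' => h'.1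
  have hc2 : B.ncard ≤ (B \ (X1 ∪ X2)).ncard + (X1.ncard + X2.ncard) := by
    have h1 := Set.ncard_le_ncard_sdiff_add_ncard B (X1 ∪ X2) (hX1f.union hX2f)
    have h2 := Set.ncard_union_le X1 X2
    omega
  have hc3 : (B.ncard : ℝ) ≤ 2 * ({f : k[X][X] | FamT g N r S h T A f}.ncard : ℝ) := by
    have h1 : (B.ncard : ℝ) ≤ ((B \ (X1 ∪ X2)).ncard : ℝ) + (X1.ncard + X2.ncard) := by
      exact_mod_cast hc2
    have h2 : ((B \ (X1 ∪ X2)).ncard : ℝ) ≤
        ({f : k[X][X] | FamT g N r S h T A f}.ncard : ℝ) := by exact_mod_cast hc1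
    linarith
  have hc4 : (Nat.card k : ℝ) ^ (2 * N * dd g) =
      (B.ncard : ℝ) * ((∏ Q ∈ S ∪ T, nm Q ^ (2 * g) : ℕ) : ℝ) := by
    rw [← hnW]
    exact_mod_cast hBcard.symm
  rw [hc4]
  have hpos : (0 : ℝ) ≤ ((∏ Q ∈ S ∪ T, nm Q ^ (2 * g) : ℕ) : ℝ) := Nat.cast_nonneg _
  nlinarith [mul_le_mul_of_nonneg_right hc3 hpos]

end poly

/-- **JM/FAMT, from the parts of PJ.** -/
theorem famt_of (hLD : S_LD) (hBX : S_BX) (hLP : S_LP) : S_FAMT := by
  intro g k _ _ hg hk r hr T A hT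
  obtain ⟨D, hD⟩ : ∃ D : ℕ, 4 * Kg g ≤ Nat.card k ^ D :=
    ⟨4 * Kg g, (Nat.lt_pow_self (q_pos (k := k))).le⟩
  -- the small primes
  have hfin : {P : k[X] | P.Monic ∧ Irreducible P ∧ P.natDegree ≤ D}.Finite := by
    have h1 : {P : k[X] | P.Monic ∧ Irreducible P ∧ P.natDegree ≤ D} ⊆
        ⋃ d ∈ Finset.range (D + 1), Irr k d := by
      rintro P ⟨h1, h2, h3⟩
      rw [Set.mem_iUnion₂]
      exact ⟨P.natDegree, Finset.mem_range.2 (by omega), h1, h2, rfl⟩
    exact (Set.Finite.biUnion (Finset.finite_toSet _) fun d _ => Irr_finite d).subset h1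
  set Sm : Finset k[X] := hfin.toFinset with hSm
  have hSmp : ∀ P ∈ Sm, P.Monic ∧ Irreducible P := by
    intro P hP
    have := hfin.mem_toFinset.1 hP
    exact ⟨this.1, this.2.1⟩
  obtain ⟨A0, hA0⟩ := (tch g k hg hk Sm hSmp).1
  set A' : k[X] → k[X][X] := fun P => if P ∈ T then A P else A0 P with hA'
  set cc : ℕ := ∏ P ∈ T ∪ Sm, nm P ^ (2 * g) with hcc
  have hccpos : 0 < cc := Finset.prod_pos fun P _ => pow_pos (nm_pos P) _
  refine ⟨1 / (2 * cc), by positivity, fun S h hS hdis => ?_⟩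
  set T' : Finset k[X] := T ∪ (Sm \ S) with hT'
  have hGT : GoodT g T' A' := by
    intro P hP
    by_cases hPT : P ∈ T
    · rw [hA']
      simp only [if_pos hPT]
      exact hT P hPT
    · have hPS : P ∈ Sm \ S := by
        rcases Finset.mem_union.1 hP with h1 | h1
        · exact absurd h1 hPT
        · exact h1
      rw [hA']
      simp only [if_neg hPT]
      exact hA0 P (Finset.mem_sdiff.1 hPS).1
  have hdis' : Disjoint S T' := by
    rw [hT', Finset.disjoint_union_right]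
    exact ⟨hdis, Finset.disjoint_sdiff⟩
  have hsm : ∀ P : k[X], P.Monic → Irreducible P → P.natDegree ≤ D → P ∈ S ∪ T' := by
    intro P h1 h2 h3
    by_cases hPS : P ∈ S
    · exact Finset.mem_union_left _ hPS
    · apply Finset.mem_union_right
      apply Finset.mem_union_right
      exact Finset.mem_sdiff.2 ⟨hfin.mem_toFinset.2 ⟨h1, h2, h3⟩, hPS⟩
  obtain ⟨N₀, hN₀⟩ := core hLD hBX hLP hg hk hD hr S h hS T' A' hGT hdis' hsm
  refine ⟨N₀, fun N hN => ?_⟩
  have h1 := hN₀ N hN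
  have hsub : {f : k[X][X] | FamT g N r S h T' A' f} ⊆ {f : k[X][X] | FamT g N r S h T A f} := by
    intro f hf
    refine ⟨hf.fam, fun P hP => ?_⟩
    have h2 := hf.con P (Finset.mem_union_left _ hP)
    rw [hA'] at h2
    simp only [if_pos hP] at h2
    exact h2
  have h2 : {f : k[X][X] | FamT g N r S h T' A' f}.ncard ≤
      {f : k[X][X] | FamT g N r S h T A f}.ncard := Set.ncard_le_ncard hsub (famT_fin hBX)
  have h3 : ∏ Q ∈ S ∪ T', nm Q ^ (2 * g) ≤ (∏ Q ∈ S, nm Q ^ (2 * g)) * cc := by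
    rw [Finset.prod_union hdis']
    apply Nat.mul_le_mul_left
    apply Finset.prod_le_prod_of_subset_of_one_le'
    · apply Finset.union_subset_union_right
      exact Finset.sdiff_subset
    · intro P _ _
      exact Nat.one_le_pow _ _ (nm_pos P)
  have h4 : (Nat.card k : ℝ) ^ (2 * N * dd g) ≤ 2 * (((∏ Q ∈ S, nm Q ^ (2 * g) : ℕ) : ℝ) * cc) *
      ({f : k[X][X] | FamT g N r S h T A f}.ncard : ℝ) := by
    refine h1.trans ?_
    have h5 : ((∏ Q ∈ S ∪ T', nm Q ^ (2 * g) : ℕ) : ℝ) ≤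
        ((∏ Q ∈ S, nm Q ^ (2 * g) : ℕ) : ℝ) * cc := by exact_mod_cast h3
    have h6 : ({f : k[X][X] | FamT g N r S h T' A' f}.ncard : ℝ) ≤
        ({f : k[X][X] | FamT g N r S h T A f}.ncard : ℝ) := by exact_mod_cast h2
    have h7 : (0 : ℝ) ≤ ((∏ Q ∈ S ∪ T', nm Q ^ (2 * g) : ℕ) : ℝ) := Nat.cast_nonneg _
    have h8 : (0 : ℝ) ≤ ({f : k[X][X] | FamT g N r S h T' A' f}.ncard : ℝ) := Nat.cast_nonneg _
    apply mul_le_mul (by linarith) h6 h8
    positivity
  have hccR : (0 : ℝ) < cc := by exact_mod_cast hccpos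
  rw [div_mul_eq_mul_div, one_mul, div_le_iff₀ (by positivity)]
  calc (Nat.card k : ℝ) ^ (2 * N * dd g) ≤ _ := h4
    _ = _ := by ring

end Pool.Agent.N615.JM
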